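import Pool.Agent.Lib.MP_e39433_co.Final

open Matrix

namespace Pool.Agent.Results.MP_e39433_co.LevelBound

/-- walk matrix: column j is A^j e -/
def walk {N : ℕ} (G : SimpleGraph (Fin N)) [DecidableRel G.Adj] : Matrix (Fin N) (Fin N) ℤ :=
  Matrix.of fun i j => ((G.adjMatrix ℤ) ^ (j : ℕ) *ᵥ fun _ => 1) i

/-- d is the diagonal of the Smith normal form of W -/
def IsSmith {N : ℕ} (W : Matrix (Fin N) (Fin N) ℤ) (d : Fin N → ℕ) : Prop :=
  (∃ U V : Matrix (Fin N) (Fin N) ℤ, IsUnit U.det ∧ IsUnit V.det ∧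
    U * W * V = Matrix.diagonal fun i => (d i : ℤ)) ∧ ∀ i j, i ≤ j → d i ∣ d j

/-- rational regular orthogonal matrices conjugating A to a (0,1)-matrix -/
def mates {N : ℕ} (G : SimpleGraph (Fin N)) [DecidableRel G.Adj] :
    Set (Matrix (Fin N) (Fin N) ℚ) :=
  {Q | Qᵀ * Q = 1 ∧ (Q *ᵥ fun _ => 1) = (fun _ => 1) ∧
    ∀ i j, (Qᵀ * G.adjMatrix ℚ * Q) i j = 0 ∨ (Qᵀ * G.adjMatrix ℚ * Q) i j = 1}

/-- least positive integer k with kQ integral -/
noncomputable def level {N : ℕ} (Q : Matrix (Fin N) (Fin N) ℚ) : ℕ :=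
  sInf {k : ℕ | 0 < k ∧ ∀ i j, ∃ z : ℤ, (k : ℚ) * Q i j = z}

/-- least positive common multiple of the levels -/
noncomputable def levelLcm {N : ℕ} (G : SimpleGraph (Fin N)) [DecidableRel G.Adj] : ℕ :=
  sInf {k : ℕ | 0 < k ∧ ∀ Q ∈ mates G, level Q ∣ k}

theorem result (n : ℕ) (G : SimpleGraph (Fin (n + 2))) [DecidableRel G.Adj]
    (hG : (walk G).det ≠ 0) (d : Fin (n + 2) → ℕ) (hd : IsSmith (walk G) d) :
    0 < levelLcm G ∧ ∀ p : ℕ, p.Prime →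
      2 * padicValNat p (levelLcm G) ≤
        padicValNat p (d (Fin.last (n + 1))) + padicValNat p (d (Fin.last n).castSucc) := by
  obtain ⟨⟨U, V, hU, hV, hS⟩, hdd⟩ := hd
  have hsym : (G.adjMatrix ℤ)ᵀ = G.adjMatrix ℤ := G.transpose_adjMatrix
  have hmap : (G.adjMatrix ℤ).map (Int.cast : ℤ → ℚ) = G.adjMatrix ℚ := by
    ext i j
    simp [SimpleGraph.adjMatrix_apply]
  have main : ∀ Q ∈ mates G, (∀ i, d i ≠ 0) ∧ ∀ i j, ∃ z : ℤ,
      (Nat.floorRoot 2 (d (Fin.last (n + 1)) * d (Fin.last n).castSucc) : ℚ) * Q i j = z := by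
    rintro Q ⟨h1, h2, h3⟩
    refine Pool.Agent.Lib.MP_e39433_co.core (G.adjMatrix ℤ) hsym (fun _ => 1) (walk G)
      (fun i j => rfl) hG U V hU hV d hS hdd Q h1 (by simpa using h2) ?_
    intro i j
    rw [hmap]
    rcases h3 i j with h | h
    · exact ⟨0, by simpa using h⟩
    · exact ⟨1, by simpa using h⟩
  have hone : (1 : Matrix (Fin (n + 2)) (Fin (n + 2)) ℚ) ∈ mates G := by
    refine ⟨by simp, by simp, fun i j => ?_⟩
    simp only [transpose_one, Matrix.one_mul, Matrix.mul_one, SimpleGraph.adjMatrix_apply]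
    split_ifs <;> simp
  have hd0 := (main 1 hone).1
  set M := d (Fin.last (n + 1)) * d (Fin.last n).castSucc with hM
  have hM0 : M ≠ 0 := mul_ne_zero (hd0 _) (hd0 _)
  set K := Nat.floorRoot 2 M with hK
  have hK0 : 0 < K := Nat.pos_of_ne_zero (Nat.floorRoot_ne_zero.2 ⟨by norm_num, hM0⟩)
  have hlev : ∀ Q ∈ mates G, level Q ∣ K := by
    intro Q hQ
    have hmem : K ∈ {k : ℕ | 0 < k ∧ ∀ i j, ∃ z : ℤ, (k : ℚ) * Q i j = z} := ⟨hK0, (main Q hQ).2⟩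
    obtain ⟨hl0, hl⟩ : level Q ∈ {k : ℕ | 0 < k ∧ ∀ i j, ∃ z : ℤ, (k : ℚ) * Q i j = z} :=
      Nat.sInf_mem ⟨K, hmem⟩
    by_contra hnd
    have hr0 : 0 < K % level Q := Nat.pos_of_ne_zero fun h => hnd (Nat.dvd_of_mod_eq_zero h)
    have hle : level Q ≤ K % level Q := by
      refine Nat.sInf_le ⟨hr0, fun i j => ?_⟩
      obtain ⟨a, ha⟩ := hmem.2 i j
      obtain ⟨b, hb⟩ := hl i j
      refine ⟨a - (K / level Q : ℕ) * b, ?_⟩
      have h1 : ((K % level Q : ℕ) : ℚ) = (K : ℚ) - (level Q : ℚ) * ((K / level Q : ℕ) : ℚ) := by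
        have := Nat.mod_add_div K (level Q)
        have h2 : ((K % level Q : ℕ) : ℚ) + (level Q : ℚ) * ((K / level Q : ℕ) : ℚ) = K := by
          exact_mod_cast this
        linarith
      rw [h1, Int.cast_sub, Int.cast_mul, Int.cast_natCast, ← ha, ← hb]
      ring
    exact absurd (Nat.mod_lt K hl0) (not_lt.2 hle)
  have hmem : K ∈ {k : ℕ | 0 < k ∧ ∀ Q ∈ mates G, level Q ∣ k} := ⟨hK0, hlev⟩
  obtain ⟨hL0, hL⟩ : levelLcm G ∈ {k : ℕ | 0 < k ∧ ∀ Q ∈ mates G, level Q ∣ k} :=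
    Nat.sInf_mem ⟨K, hmem⟩
  have hLK : levelLcm G ∣ K := by
    by_contra hnd
    have hr0 : 0 < K % levelLcm G := Nat.pos_of_ne_zero fun h => hnd (Nat.dvd_of_mod_eq_zero h)
    have hle : levelLcm G ≤ K % levelLcm G :=
      Nat.sInf_le ⟨hr0, fun Q hQ => (Nat.dvd_mod_iff (hL Q hQ)).2 (hlev Q hQ)⟩
    exact absurd (Nat.mod_lt K hL0) (not_lt.2 hle)
  have hsq : levelLcm G ^ 2 ∣ M := Nat.pow_dvd_iff_dvd_floorRoot.2 hLK
  refine ⟨hL0, fun p hp => ?_⟩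
  have := Fact.mk hp
  rw [← padicValNat.mul (hd0 _) (hd0 _), ← padicValNat.pow, ← hM]
  exact (padicValNat_dvd_iff_le hM0).1 (pow_padicValNat_dvd.trans hsq)

end Pool.Agent.Results.MP_e39433_co.LevelBound
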